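import Mathlib

/-!
# Schur stability of `W (I - t B)`: a counterexample with `n = 2`

`W = [[0, 1], [2/5, 3/5]]`, `B = [[329, -228], [-228, 196]]` (eigenvalues `500` and `25`),
`t = 9/2500 < 2/500`: the characteristic polynomial of `P(t) = W (I - t B)` is negative at `1`, so
`P(t)` has a real eigenvalue larger than `1`.
-/

set_option autoImplicit false

namespace Pool.Agent.Results.MP_d721eb_al.Unstable

open Matrix

/-- The largest modulus of a complex eigenvalue of the real matrix `M`. -/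
noncomputable def rho {n : ℕ} (M : Matrix (Fin n) (Fin n) ℝ) : ℝ :=
  sSup {r : ℝ | ∃ z ∈ spectrum ℂ (M.map (algebraMap ℝ ℂ)), r = ‖z‖}

theorem mem_spec_iff (a b c d : ℝ) (z : ℂ) :
    z ∈ spectrum ℂ ((!![a, b; c, d] : Matrix (Fin 2) (Fin 2) ℝ).map (algebraMap ℝ ℂ)) ↔
      z ^ 2 - (a + d) * z + (a * d - b * c) = 0 := by
  rw [spectrum.mem_iff, Matrix.isUnit_iff_isUnit_det, isUnit_iff_ne_zero, not_not,
    Matrix.det_fin_two]
  simp only [Matrix.sub_apply, Matrix.algebraMap_matrix_apply, Matrix.map_apply]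
  simp
  constructor
  · intro h
    linear_combination h
  · intro h
    linear_combination h

theorem rho_bdd {n : ℕ} (M : Matrix (Fin n) (Fin n) ℝ) :
    BddAbove {r : ℝ | ∃ z ∈ spectrum ℂ (M.map (algebraMap ℝ ℂ)), r = ‖z‖} := by
  have hfin : (spectrum ℂ (M.map (algebraMap ℝ ℂ))).Finite := Matrix.finite_spectrum _
  have : {r : ℝ | ∃ z ∈ spectrum ℂ (M.map (algebraMap ℝ ℂ)), r = ‖z‖} =
      (fun z : ℂ => ‖z‖) '' (spectrum ℂ (M.map (algebraMap ℝ ℂ))) := by
    ext r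
    constructor
    · rintro ⟨z, hz, rfl⟩
      exact ⟨z, hz, rfl⟩
    · rintro ⟨z, hz, rfl⟩
      exact ⟨z, hz, rfl⟩
  rw [this]
  exact (hfin.image _).bddAbove

/-- The positive semidefinite matrix of the counterexample. -/
def B : Matrix (Fin 2) (Fin 2) ℝ := !![329, -228; -228, 196]

/-- The stochastic matrix of the counterexample. -/
noncomputable def W : Matrix (Fin 2) (Fin 2) ℝ := !![0, 1; 2/5, 3/5]

theorem rho_B : rho B = 500 := by
  unfold rho
  apply le_antisymm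
  · apply csSup_le
    · refine ⟨‖(500 : ℂ)‖, 500, ?_, rfl⟩
      rw [B, mem_spec_iff]
      push_cast
      norm_num
    · rintro r ⟨z, hz, rfl⟩
      rw [B, mem_spec_iff] at hz
      push_cast at hz
      have h : (z - 500) * (z - 25) = 0 := by linear_combination hz
      rcases mul_eq_zero.mp h with h | h
      · rw [sub_eq_zero.mp h]
        norm_num
      · rw [sub_eq_zero.mp h]
        norm_num
  · apply le_csSup (rho_bdd B)
    refine ⟨500, ?_, by norm_num⟩
    rw [B, mem_spec_iff]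
    push_cast
    norm_num

theorem B_psd : B.PosSemidef := by
  refine Matrix.PosSemidef.of_dotProduct_mulVec_nonneg ?_ ?_
  · ext i j
    fin_cases i <;> fin_cases j <;> simp [B]
  · intro x
    simp [B, Matrix.mulVec, dotProduct, Fin.sum_univ_two]
    nlinarith [sq_nonneg (4 * x 0 - 3 * x 1), sq_nonneg (3 * x 0 + 4 * x 1)]

theorem P_eq : W * (1 - (9/2500 : ℝ) • B) =
    !![(513/625 : ℝ), 184/625; 2617/6250, 1578/3125] := by
  ext i j
  fin_cases i <;> fin_cases j <;> simp [W, B, Matrix.mul_apply, Fin.sum_univ_two] <;> norm_num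

theorem one_lt_rho_P : 1 < rho (W * (1 - (9/2500 : ℝ) • B)) := by
  rw [P_eq]
  have h0 : ∃ x : ℝ, 1 < x ∧
      x ^ 2 - (513/625 + 1578/3125) * x + (513/625 * (1578/3125) - 184/625 * (2617/6250)) = 0 := by
    have hc : ContinuousOn (fun x : ℝ => x ^ 2 - (513/625 + 1578/3125) * x +
        (513/625 * (1578/3125) - 184/625 * (2617/6250))) (Set.Icc 1 2) := by fun_prop
    obtain ⟨x, hx, h0⟩ := intermediate_value_Icc (by norm_num : (1 : ℝ) ≤ 2) hc
      (show (0 : ℝ) ∈ Set.Icc _ _ from ⟨by norm_num, by norm_num⟩)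
    refine ⟨x, lt_of_le_of_ne hx.1 ?_, h0⟩
    rintro rfl
    norm_num at h0
  obtain ⟨x, hx1, hx⟩ := h0
  refine lt_of_lt_of_le hx1 ?_
  unfold rho
  apply le_csSup (rho_bdd _)
  refine ⟨(x : ℂ), ?_, ?_⟩
  · rw [mem_spec_iff]
    exact_mod_cast congrArg (fun r : ℝ => (r : ℂ)) hx
  · rw [Complex.norm_real, Real.norm_of_nonneg (by linarith)]

/-- There are `n`, a primitive stochastic `W` with left Perron eigenvector `p`, a positive
semidefinite `B` with `B e ≤ ϱ(B) e` and `pᵀ B e > 0`, and `t ∈ (0, 2 / ϱ(B))` with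
`ϱ(W (I - t B)) > 1`. -/
theorem result : ∃ (n : ℕ) (W B : Matrix (Fin n) (Fin n) ℝ) (p : Fin n → ℝ) (t : ℝ),
    (∀ i j, 0 ≤ W i j) ∧ (∀ i, ∑ j, W i j = 1) ∧
    (∃ m : ℕ, 1 ≤ m ∧ ∀ i j, 0 < (W ^ m) i j) ∧
    (∀ i, 0 < p i) ∧ ∑ i, p i = 1 ∧ p ᵥ* W = p ∧
    B.PosSemidef ∧ (∀ i, (B *ᵥ 1) i ≤ rho B) ∧ 0 < p ⬝ᵥ (B *ᵥ 1) ∧
    0 < t ∧ t < 2 / rho B ∧ 1 < rho (W * (1 - t • B)) := by
  refine ⟨2, W, B, ![2/7, 5/7], 9/2500, ?_, ?_, ⟨2, by norm_num, ?_⟩, ?_, ?_, ?_, B_psd, ?_, ?_,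
    by norm_num, ?_, one_lt_rho_P⟩
  · intro i j
    fin_cases i <;> fin_cases j <;> simp [W] <;> norm_num
  · intro i
    fin_cases i <;> simp [W, Fin.sum_univ_two]
    norm_num
  · intro i j
    rw [sq]
    fin_cases i <;> fin_cases j <;> simp [W, Matrix.mul_apply, Fin.sum_univ_two] <;> norm_num
  · intro i
    fin_cases i <;> simp
  · simp [Fin.sum_univ_two]
    norm_num
  · ext i
    fin_cases i <;> simp [W, Matrix.vecMul, dotProduct, Fin.sum_univ_two]
    norm_num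
  · intro i
    rw [rho_B]
    fin_cases i <;> simp [B, Matrix.mulVec, dotProduct, Fin.sum_univ_two] <;> norm_num
  · simp [B, Matrix.mulVec, dotProduct, Fin.sum_univ_two]
    norm_num
  · rw [rho_B]
    norm_num

end Pool.Agent.Results.MP_d721eb_al.Unstable
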